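import Pool.Agent.H32.CH.Targets

/-! MP_aaa807_co, table ch_modules, module D3. -/

set_option autoImplicit false

namespace Pool.Agent.H32.CH

open Finset
open scoped Classical

theorem pf_D3 (h4 : T_M4) (h7 : T_M7) : T_D3 := by
  intro V _ G A hD hT h5 hN7 hE x y z hx hyz hxy hxz
  by_contra hcon
  push Not at hcon
  obtain ⟨hTy, hTz⟩ := hcon
  have hxt : Tk G A x := hxy.2.1
  -- the common neighbours
  have hK : ∀ b, K2v G A b → ¬ G.Adj x b := fun b hb hxb => hx ⟨hxt, b, hb, hxb⟩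
  have hcom : ∀ y, (DG G A).Adj x y → ∃ k, k ∉ A ∧ ¬ K2v G A k ∧ G.Adj x k ∧ G.Adj y k := by
    intro y hxy
    obtain ⟨-, -, -, b, b', hb, hb', hbb, hxb, hyb⟩ := hxy
    rcases hbb with rfl | hbb
    · exact ⟨b, hb, fun h => hK b h hxb, hxb, hyb⟩
    · exfalso
      refine hK b ⟨hb, ?_⟩ hxb
      have : 0 < dg G Aᶜ b := dg_pos.2 ⟨b', mem_compl.2 hb', hbb⟩
      omega
  obtain ⟨k₁, hk₁, hn₁, hxk₁, hyk₁⟩ := hcom y hxy
  obtain ⟨k₂, hk₂, hn₂, hxk₂, hzk₂⟩ := hcom z hxz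
  obtain ⟨hyt, c₁, hc₁, hyc₁⟩ := hTy
  obtain ⟨hzt, c₂, hc₂, hzc₂⟩ := hTz
  have hxy' : x ≠ y := hxy.1
  have hxz' : x ≠ z := hxz.1
  have hk : k₁ ≠ k₂ := by
    rintro rfl
    have h := h4 V G A hD hT hE.1 k₁ hk₁
    have hsub : ({x, y, z} : Finset V) ⊆ A.filter (fun x => dg G A x = 2 ∧ G.Adj k₁ x) := by
      intro a ha
      simp only [mem_insert, mem_singleton] at ha
      rcases ha with rfl | rfl | rfl
      · exact mem_filter.2 ⟨hxt.1, hxt.2, hxk₁.symm⟩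
      · exact mem_filter.2 ⟨hyt.1, hyt.2, hyk₁.symm⟩
      · exact mem_filter.2 ⟨hzt.1, hzt.2, hzk₂.symm⟩
    have hc := card_le_card hsub
    have h3 : ({x, y, z} : Finset V).card = 3 := by
      rw [card_insert_of_notMem (by simp [hxy', hxz']), card_pair hyz]
    omega
  have hyz' : ¬ G.Adj y z := fun h => h5 x k₁ y z k₂ hxk₁ hyk₁.symm h hzk₂ hxk₂.symm
  have hcc : c₁ ≠ c₂ := by
    rintro rfl
    have h := h4 V G A hD hT hE.1 c₁ hc₁.1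
    have hsub : ({y, z} : Finset V) ⊆ A.filter (fun x => dg G A x = 2 ∧ G.Adj c₁ x) := by
      intro a ha
      simp only [mem_insert, mem_singleton] at ha
      rcases ha with rfl | rfl
      · exact mem_filter.2 ⟨hyt.1, hyt.2, hyc₁.symm⟩
      · exact mem_filter.2 ⟨hzt.1, hzt.2, hzc₂.symm⟩
    have hc := card_le_card hsub
    rw [card_pair hyz] at hc
    have := hc₁.2
    omega
  have hadj : ¬ G.Adj c₁ c₂ := fun h =>
    hN7 x k₁ y c₁ c₂ z k₂ hxk₁ hyk₁.symm hyc₁ h hzc₂.symm hzk₂ hxk₂.symm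
  have hck₁ : c₁ ≠ k₁ := by
    rintro rfl
    exact hn₁ hc₁
  have hck₂ : c₂ ≠ k₂ := by
    rintro rfl
    exact hn₂ hc₂
  exact h7 V G A hD hT hE y x z c₁ k₁ k₂ c₂ hyt hxt hzt hxy'.symm hxz' hyz hyz' hc₁ hc₂ hk₁ hk₂ hk
    hck₁ hck₂ hcc hadj hyc₁.symm hyk₁ hxk₁.symm hxk₂ hzk₂.symm hzc₂

end Pool.Agent.H32.CH
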