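import Pool.Agent.H32.CH.Targets

/-! MP_aaa807_co, table ch_modules, module ROT. -/

set_option autoImplicit false

namespace Pool.Agent.H32.CH

open Finset
open scoped Classical

/-- rotation is injective -/
theorem ROT_inj {n t x y : ℕ} (hx : x < n) (hy : y < n) (h : (x + t) % n = (y + t) % n) :
    x = y := by
  have h1 : x + t ≡ y + t [MOD n] := h
  have h2 : x ≡ y [MOD n] := Nat.ModEq.add_right_cancel' t h1
  have h3 : x % n = y % n := h2
  rwa [Nat.mod_eq_of_lt hx, Nat.mod_eq_of_lt hy] at h3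

/-- rotated windows -/
theorem ROT_main (n t : ℕ) (ht : t ≤ 2 * n) (hn : 0 < n) (Q Q' : Finset ℕ → Prop)
    (h : CSys n Q)
    (hQ : ∀ r : Finset ℕ, r ⊆ range n → Q' r → Q ((range n).filter (fun x => (x + t) % n ∈ r))) :
    CSys n Q' := by
  obtain ⟨q, w, ⟨hw1, hw2, hw3⟩, hs⟩ := h
  have hinj : Set.InjOn (fun x => (x + t) % n) (range n : Finset ℕ) := by
    intro x hx y hy hxy
    rw [mem_coe, mem_range] at hx hy
    exact ROT_inj hx hy hxy
  have hinj' : ∀ X : Finset ℕ, X ⊆ range n → Set.InjOn (fun x => (x + t) % n) (X : Set ℕ) := by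
    intro X hX
    exact hinj.mono (by exact_mod_cast hX)
  refine ⟨q, fun i => (w i).image (fun x => (x + t) % n), ⟨?_, ?_, ?_⟩, ?_⟩
  · intro i
    rw [card_image_of_injOn (hinj' _ (hw2 i))]
    exact hw1 i
  · intro i y hy
    obtain ⟨x, -, rfl⟩ := mem_image.1 hy
    exact mem_range.2 (Nat.mod_lt _ hn)
  · intro i j hij
    rw [disjoint_left]
    intro y hy hy'
    obtain ⟨x, hx, rfl⟩ := mem_image.1 hy
    obtain ⟨x', hx', he⟩ := mem_image.1 hy'
    have h1 := ROT_inj (mem_range.1 (hw2 j hx')) (mem_range.1 (hw2 i hx)) he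
    subst h1
    exact disjoint_left.1 (hw3 i j hij) hx hx'
  · intro r hr hr1 hr2
    obtain ⟨s₀, hs₀, hg1, hg2, hg3⟩ := hs ((range n).filter (fun x => (x + t) % n ∈ r))
      (filter_subset _ _) (by
        intro i
        rw [← hr1 i]
        have he : r ∩ (w i).image (fun x => (x + t) % n) =
            ((range n).filter (fun x => (x + t) % n ∈ r) ∩ w i).image (fun x => (x + t) % n) := by
          ext y
          simp only [mem_inter, mem_image, mem_filter]
          constructor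
          · rintro ⟨h1, x, hx, rfl⟩
            exact ⟨x, ⟨⟨hw2 i hx, h1⟩, hx⟩, rfl⟩
          · rintro ⟨x, ⟨⟨_, h1⟩, hx⟩, rfl⟩
            exact ⟨h1, x, hx, rfl⟩
        rw [he, card_image_of_injOn (hinj' _ (inter_subset_left.trans (filter_subset _ _)))])
      (hQ r hr hr2)
    refine ⟨s₀.image (fun x => (x + t) % n), ?_, ?_, ?_, ?_⟩
    · intro y hy
      obtain ⟨x, hx, rfl⟩ := mem_image.1 hy
      exact (mem_filter.1 (hs₀ hx)).2
    · intro y hy
      obtain ⟨x, -, rfl⟩ := mem_image.1 hy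
      exact mem_range.2 (Nat.mod_lt _ hn)
    · intro y hy hy'
      obtain ⟨x, hx, rfl⟩ := mem_image.1 hy
      obtain ⟨x', hx', he⟩ := mem_image.1 hy'
      have h1 : ((x + t) % n + 1) % n = ((x + 1) % n + t) % n := by
        rw [Nat.mod_add_mod, Nat.mod_add_mod]
        congr 1
        ring
      rw [h1] at he
      have h2 := ROT_inj (mem_range.1 (hg1 hx')) (Nat.mod_lt _ hn) he
      rw [h2] at hx'
      exact hg2 x hx hx'
    · intro a ha
      obtain ⟨i, hi, h1⟩ := hg3 ((a + (2 * n - t)) % n) (Nat.mod_lt _ hn)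
      refine ⟨i, hi, mem_image.2 ⟨_, h1, ?_⟩⟩
      rw [Nat.mod_add_mod, add_assoc, Nat.mod_add_mod, ← add_assoc]
      have h2 : a + (2 * n - t) + i + t = a + i + n * 2 := by omega
      rw [h2, Nat.add_mul_mod_self_left]

theorem pf_ROT (h : T_W1) : T_ROT := by
  intro m hm p d hd hp
  have hW := h m (by omega)
  -- base position
  obtain ⟨c, hc1, hc2, hc3⟩ : ∃ c, c ≤ 3 ∧ (∃ j < m, c = 6 * j + 2 ∨ c = 6 * j + 3) ∧
      (∃ j < m, c + d = 6 * j + 2 ∨ c + d = 6 * j + 3) := by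
    rcases hd with rfl | rfl | rfl | rfl
    · exact ⟨2, by omega, ⟨0, by omega, by omega⟩, ⟨0, by omega, by omega⟩⟩
    · exact ⟨3, by omega, ⟨0, by omega, by omega⟩, ⟨1, by omega, by omega⟩⟩
    · exact ⟨2, by omega, ⟨0, by omega, by omega⟩, ⟨1, by omega, by omega⟩⟩
    · exact ⟨2, by omega, ⟨0, by omega, by omega⟩, ⟨1, by omega, by omega⟩⟩
  refine ROT_main (6 * m + 1) (p + (6 * m + 1) - c) (by omega) (by omega) _ _ hW ?_
  intro r _ hr
  have key : ∀ e, (∃ j < m, e = 6 * j + 2 ∨ e = 6 * j + 3) →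
      (e + (p + (6 * m + 1) - c)) % (6 * m + 1) ∉ r →
      ∃ j < m, 6 * j + 2 ∉ (range (6 * m + 1)).filter
          (fun x => (x + (p + (6 * m + 1) - c)) % (6 * m + 1) ∈ r) ∨
        6 * j + 3 ∉ (range (6 * m + 1)).filter
          (fun x => (x + (p + (6 * m + 1) - c)) % (6 * m + 1) ∈ r) := by
    rintro e ⟨j, hj, rfl | rfl⟩ he
    · exact ⟨j, hj, Or.inl (fun h => he (mem_filter.1 h).2)⟩
    · exact ⟨j, hj, Or.inr (fun h => he (mem_filter.1 h).2)⟩
  by_cases hpr : p ∈ r
  · have hpd : p + d ∉ r := fun h => hr ⟨hpr, h⟩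
    refine key (c + d) hc3 ?_
    have h2 : c + d + (p + (6 * m + 1) - c) = p + d + (6 * m + 1) := by omega
    rw [h2, Nat.add_mod_right, Nat.mod_eq_of_lt hp]
    exact hpd
  · refine key c hc2 ?_
    have h2 : c + (p + (6 * m + 1) - c) = p + (6 * m + 1) := by omega
    rw [h2, Nat.add_mod_right, Nat.mod_eq_of_lt (by omega)]
    exact hpr

end Pool.Agent.H32.CH
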