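import Pool.Agent.H32.CH.Targets

/-! MP_aaa807_co, table ch_modules, module T1. -/

set_option autoImplicit false

namespace Pool.Agent.H32.CH

open Finset
open scoped Classical

theorem pf_T1 (h1 : T_EX) (h2 : T_ST) : T_T1 := by
  intro V _ G hD hT
  obtain ⟨A, hA⟩ := h1 V G
  have hE : ∀ (A : Finset V) (a : V), ¬ TokH G A ∅ a := by
    rintro A a ⟨-, h, hh, -⟩
    exact absurd hh (notMem_empty h)
  have h0 : Hist G A ∅ := by
    refine ⟨hA, fun h hh => absurd hh (notMem_empty h), ?_, fun h hh => absurd hh (notMem_empty h),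
      ?_⟩
    · intro Z _ a _ a' _ hta
      exact absurd hta (hE A a)
    · intro C _ a _ hta
      exact absurd hta (hE A a)
  have key : ∀ (k : ℕ) (A H : Finset V), Fintype.card V - H.card ≤ k → Hist G A H →
      ∃ A, Ext3 G A ∧ ∀ Z, Prob G A Z → ∃ f ∈ Z, ∀ z ∈ Z, TT G A z → z = f ∨ G.Adj f z := by
    intro k
    induction k with
    | zero =>
      intro A H hk hH
      by_cases hc : ∀ Z, Prob G A Z → ∃ f ∈ Z, ∀ z ∈ Z, TT G A z → z = f ∨ G.Adj f z
      · exact ⟨A, hH.1, hc⟩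
      · push Not at hc
        obtain ⟨Z, hZ, hf⟩ := hc
        obtain ⟨A', H', -, hlt⟩ := h2 V G A H Z hD hT hH hZ hf
        have := card_le_univ H'
        omega
    | succ k ih =>
      intro A H hk hH
      by_cases hc : ∀ Z, Prob G A Z → ∃ f ∈ Z, ∀ z ∈ Z, TT G A z → z = f ∨ G.Adj f z
      · exact ⟨A, hH.1, hc⟩
      · push Not at hc
        obtain ⟨Z, hZ, hf⟩ := hc
        obtain ⟨A', H', hH', hlt⟩ := h2 V G A H Z hD hT hH hZ hf
        exact ih A' H' (by omega) hH'
  exact key _ A ∅ le_rfl h0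

end Pool.Agent.H32.CH
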